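import Mathlib

/-!
The nesting step for the lower bound of a Hausdorff dimension: well spaced points.
-/

set_option autoImplicit false

open Set Metric MeasureTheory

namespace Pool.Agent.H70HD

/-- number of well spaced points in an interval -/
theorem card_spaced (G : Finset ℝ) (N L : ℝ) (hN : 0 < N) (hL : 0 ≤ L)
    (hsp : ∀ y ∈ G, ∀ y' ∈ G, y ≠ y' → 1 / N ≤ |y - y'|)
    (hin : ∀ y ∈ G, ∀ y' ∈ G, |y - y'| ≤ L) : (G.card : ℝ) ≤ L * N + 1 := by
  classical
  rcases G.eq_empty_or_nonempty with h0 | hne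
  · rw [h0]
    simp only [Finset.card_empty, Nat.cast_zero]
    positivity
  · obtain ⟨m, hm, hmin⟩ := G.exists_min_image id hne
    simp only [id] at hmin
    have hmaps : ∀ y ∈ G, ⌊(y - m) * N⌋₊ ∈ Finset.range (⌊L * N⌋₊ + 1) := by
      intro y hy
      rw [Finset.mem_range, Nat.lt_succ_iff]
      refine Nat.floor_le_floor ?_
      have h1 := hin y hy m hm
      exact mul_le_mul_of_nonneg_right ((le_abs_self _).trans h1) hN.le
    have hinj : Set.InjOn (fun y => ⌊(y - m) * N⌋₊) (G : Set ℝ) := by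
      intro y hy y' hy' h
      simp only at h
      by_contra hne'
      have h1 := hsp y hy y' hy' hne'
      have h2 : 0 ≤ (y - m) * N := mul_nonneg (sub_nonneg.2 (hmin y hy)) hN.le
      have h3 : 0 ≤ (y' - m) * N := mul_nonneg (sub_nonneg.2 (hmin y' hy')) hN.le
      have h4 := Nat.floor_le h2
      have h5 := Nat.lt_floor_add_one ((y - m) * N)
      have h6 := Nat.floor_le h3
      have h7 := Nat.lt_floor_add_one ((y' - m) * N)
      rw [h] at h4 h5
      have h8 : |(y - m) * N - (y' - m) * N| < 1 := by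
        rw [abs_lt]; constructor <;> linarith
      have h9 : |(y - m) * N - (y' - m) * N| = |y - y'| * N := by
        rw [← sub_mul, abs_mul, abs_of_pos hN]; congr 2; ring
      rw [h9] at h8
      rw [div_le_iff₀ hN] at h1
      linarith
    have hcard := Finset.card_le_card_of_injOn _ hmaps hinj
    rw [Finset.card_range] at hcard
    have h10 : ((⌊L * N⌋₊ : ℕ) : ℝ) ≤ L * N := Nat.floor_le (by positivity)
    have h11 : (G.card : ℝ) ≤ ((⌊L * N⌋₊ + 1 : ℕ) : ℝ) := by exact_mod_cast hcard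
    push_cast at h11
    linarith

theorem step_abs (σ s A c R0 : ℝ) (hσ : 0 < σ) (hs : 0 < s) (hsσ : s < σ) (hσ1 : σ ≤ 1)
    (hA : 1 ≤ A) (hc : 0 < c) (hR0 : 0 < R0) :
    ∃ K0 : ℝ, ∀ (N r : ℝ) (F : Finset ℝ), K0 ≤ N → 0 < N → 0 < r → c * N ^ (-(1 / σ)) ≤ r →
      4 * r * N ≤ 1 → R0 * N / A ≤ F.card →
      (∀ y ∈ F, ∀ y' ∈ F, y ≠ y' → 1 / N ≤ |y - y'|) →
      4 * (R0 / r) ^ s ≤ F.card ∧
      ∀ (U : Set ℝ) (u : ℝ), 0 < u → (∀ x ∈ U, ∀ y ∈ U, dist x y ≤ u) →
        ∀ (G : Finset ℝ), G ⊆ F → (∀ y ∈ G, (U ∩ closedBall y r).Nonempty) →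
          (u < r → G.card ≤ 1) ∧
          (r ≤ u → u ≤ R0 → (G.card : ℝ) ≤ F.card / (4 * (1 / (64 * A))) * (u / R0) ^ s) := by
  have hθ : 0 < 1 - s / σ := by
    rw [sub_pos, div_lt_one hσ]; exact hsσ
  refine ⟨(4 * A * (R0 / c) ^ s / R0) ^ (1 / (1 - s / σ)), ?_⟩
  intro N r F hK hN hr hcr h4 hF hsp
  have hA0 : 0 < A := by linarith
  have h1 : 4 * (R0 / r) ^ s ≤ F.card := by
    have hb : 0 ≤ 4 * A * (R0 / c) ^ s / R0 := by positivity
    have e1 : 4 * A * (R0 / c) ^ s / R0 ≤ N ^ (1 - s / σ) := by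
      calc 4 * A * (R0 / c) ^ s / R0
          = ((4 * A * (R0 / c) ^ s / R0) ^ (1 / (1 - s / σ))) ^ (1 - s / σ) := by
            rw [← Real.rpow_mul hb, one_div_mul_cancel hθ.ne', Real.rpow_one]
        _ ≤ N ^ (1 - s / σ) := Real.rpow_le_rpow (by positivity) hK hθ.le
    have e2 : R0 / r ≤ R0 / c * N ^ (1 / σ) := by
      rw [div_mul_eq_mul_div, div_le_div_iff₀ hr hc]
      have e3 : c * N ^ (-(1 / σ)) * N ^ (1 / σ) = c := by
        rw [mul_assoc, ← Real.rpow_add hN]; simp
      have e4 : c ≤ r * N ^ (1 / σ) := by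
        rw [← e3]
        exact mul_le_mul_of_nonneg_right hcr (by positivity)
      calc R0 * c ≤ R0 * (r * N ^ (1 / σ)) := mul_le_mul_of_nonneg_left e4 hR0.le
        _ = R0 * N ^ (1 / σ) * r := by ring
    have e5 : (R0 / r) ^ s ≤ (R0 / c) ^ s * N ^ (s / σ) := by
      calc (R0 / r) ^ s ≤ (R0 / c * N ^ (1 / σ)) ^ s :=
            Real.rpow_le_rpow (by positivity) e2 hs.le
        _ = (R0 / c) ^ s * N ^ (s / σ) := by
            rw [Real.mul_rpow (by positivity) (by positivity), ← Real.rpow_mul hN.le]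
            congr 2; ring
    have e6 : N ^ (1 - s / σ) * N ^ (s / σ) = N := by
      rw [← Real.rpow_add hN]; simp
    calc 4 * (R0 / r) ^ s ≤ 4 * ((R0 / c) ^ s * N ^ (s / σ)) := by linarith
      _ = (4 * A * (R0 / c) ^ s / R0) * N ^ (s / σ) * (R0 / A) := by field_simp
      _ ≤ N ^ (1 - s / σ) * N ^ (s / σ) * (R0 / A) := by gcongr
      _ = R0 * N / A := by rw [e6]; ring
      _ ≤ F.card := hF
  refine ⟨h1, ?_⟩
  intro U u hu hU G hGF hG
  have hdist : ∀ y ∈ G, ∀ y' ∈ G, |y - y'| ≤ 2 * r + u := by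
    intro y hy y' hy'
    obtain ⟨z, hz1, hz2⟩ := hG y hy
    obtain ⟨z', hz1', hz2'⟩ := hG y' hy'
    rw [mem_closedBall, Real.dist_eq] at hz2 hz2'
    have h5 := hU z hz1 z' hz1'
    rw [Real.dist_eq] at h5
    have e : y - y' = -(z - y) + (z - z') + (z' - y') := by ring
    rw [e]
    calc |-(z - y) + (z - z') + (z' - y')| ≤ |-(z - y) + (z - z')| + |z' - y'| := abs_add_le _ _
      _ ≤ |-(z - y)| + |z - z'| + |z' - y'| := by
          have := abs_add_le (-(z - y)) (z - z'); linarith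
      _ ≤ 2 * r + u := by rw [abs_neg]; linarith
  have hspG : ∀ y ∈ G, ∀ y' ∈ G, y ≠ y' → 1 / N ≤ |y - y'| :=
    fun y hy y' hy' => hsp y (hGF hy) y' (hGF hy')
  constructor
  · intro hur
    rw [Finset.card_le_one]
    intro y hy y' hy'
    by_contra hne
    have h5 := hspG y hy y' hy' hne
    have h6 := hdist y hy y' hy'
    rw [div_le_iff₀ hN] at h5
    have h7 : |y - y'| * N ≤ (2 * r + u) * N := mul_le_mul_of_nonneg_right h6 hN.le
    have h8 : (2 * r + u) * N < 3 * r * N := by nlinarith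
    nlinarith
  · intro hru huR
    by_cases hGe : G = ∅
    · rw [hGe]
      simp only [Finset.card_empty, Nat.cast_zero]
      positivity
    have h5 := card_spaced G N (2 * r + u) hN (by positivity) hspG hdist
    have h6 : (G.card : ℝ) ≤ 3 * u * N + 1 := by nlinarith
    have hur : u / R0 ≤ 1 := by rw [div_le_one hR0]; exact huR
    have h7 : F.card / (4 * (1 / (64 * A))) * (u / R0) ^ s =
        16 * A * (F.card * (u / R0) ^ s) := by field_simp; ring
    rw [h7]
    by_cases hun : 1 ≤ u * N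
    · have h8 : u / R0 ≤ (u / R0) ^ s := by
        conv_lhs => rw [← Real.rpow_one (u / R0)]
        exact Real.rpow_le_rpow_of_exponent_ge (by positivity) hur (by linarith)
      have h9 : 16 * A * ((R0 * N / A) * (u / R0)) ≤ 16 * A * (F.card * (u / R0) ^ s) := by
        gcongr
      have h10 : 16 * A * ((R0 * N / A) * (u / R0)) = 16 * (u * N) := by field_simp
      linarith
    · push Not at hun
      have h8 : (G.card : ℝ) ≤ 4 := by nlinarith
      have h9 : (R0 / r) ^ s * (u / R0) ^ s = (u / r) ^ s := by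
        rw [← Real.mul_rpow (by positivity) (by positivity)]
        congr 1; field_simp
      have h10 : 1 ≤ (u / r) ^ s := by
        refine Real.one_le_rpow ?_ hs.le
        rw [one_le_div hr]; exact hru
      have h11 : 4 * (u / r) ^ s ≤ F.card * (u / R0) ^ s := by
        rw [← h9]
        have : 0 ≤ (u / R0) ^ s := by positivity
        nlinarith
      have h12 : 4 ≤ F.card * (u / R0) ^ s := by linarith
      nlinarith

end Pool.Agent.H70HD
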