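import Mathlib

/-!
Fractions `u 2^i / 3^k` and the radical of `p (q - p) q`.
-/

set_option autoImplicit false

open Set Metric MeasureTheory Filter Topology

namespace Pool.Agent.H70HD

/-- the radical -/
def R (m : ℕ) : ℕ := ∏ p ∈ m.primeFactors, p

theorem R_le (m K : ℕ) (hK : K ≠ 0) (h : ∀ p ∈ m.primeFactors, p ∣ K) : R m ≤ K := by
  have h1 : m.primeFactors ⊆ K.primeFactors := fun p hp =>
    Nat.mem_primeFactors.mpr ⟨Nat.prime_of_mem_primeFactors hp, h p hp, hK⟩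
  have h2 : ∏ p ∈ K.primeFactors, p ∣ K := Nat.prod_primeFactors_dvd K
  have h3 : R m ∣ K := (Finset.prod_dvd_prod_of_subset _ _ _ h1).trans h2
  exact Nat.le_of_dvd (Nat.pos_of_ne_zero hK) h3

/-- the points approximated at level at least `j` -/
def VV (τ lam B : ℝ) (j : ℕ) : Set ℝ :=
  {ξ | ∃ p q : ℕ, j ≤ q ∧ 0 < p ∧ p < q ∧ Nat.Coprime p q ∧
    |ξ - (p : ℝ) / q| ≤ (q : ℝ) ^ (-τ) ∧ (R (p * (q - p) * q) : ℝ) ≤ B * (q : ℝ) ^ lam}

/-- number of natural numbers in a real interval -/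
theorem card_Icc_ge (α β : ℝ) (hα : 0 ≤ α) :
    β - α - 1 ≤ ((Finset.Icc ⌈α⌉₊ ⌊β⌋₊).card : ℝ) := by
  rw [Nat.card_Icc]
  by_cases h : ⌈α⌉₊ ≤ ⌊β⌋₊ + 1
  · rw [Nat.cast_sub h]
    have h1 := Nat.lt_floor_add_one β
    have h2 := Nat.ceil_lt_add_one hα
    push_cast
    linarith
  · push Not at h
    have h1 := Nat.lt_floor_add_one β
    have h2 := Nat.ceil_lt_add_one hα
    have h3 : ((⌊β⌋₊ : ℕ) : ℝ) + 1 + 1 ≤ (⌈α⌉₊ : ℕ) := by exact_mod_cast h
    have h4 : (0 : ℝ) ≤ ((⌊β⌋₊ + 1 - ⌈α⌉₊ : ℕ) : ℝ) := Nat.cast_nonneg _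
    linarith

theorem caseA (lam τ : ℝ) (h1 : 1 < lam) (h2 : lam < 2) (hτ : lam - 1 ≤ τ) (a b : ℝ)
    (ha : 0 ≤ a) (hb : b ≤ 1) (x R0 : ℝ) (hR0 : 0 < R0) (hball : closedBall x R0 ⊆ Ioo a b)
    (j : ℕ) (K0 δ : ℝ) (hδ : 0 < δ) :
    ∃ (N r : ℝ) (F : Finset ℝ), K0 ≤ N ∧ 0 < N ∧ 0 < r ∧ r ≤ δ ∧
      ((6 : ℝ) ^ (-(τ / (lam - 1))) / 8) * N ^ (-(1 / ((lam - 1) / τ))) ≤ r ∧
      4 * r * N ≤ 1 ∧ R0 * N / 12 ≤ F.card ∧
      (∀ y ∈ F, ∀ y' ∈ F, y ≠ y' → 1 / N ≤ |y - y'|) ∧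
      ∀ y ∈ F, closedBall y r ⊆ closedBall x R0 ∧ closedBall y r ⊆ VV τ lam 1 j := by
  classical
  have hl1 : 0 < lam - 1 := by linarith
  have hτ0 : 0 < τ := by linarith
  have hx1 : a < x - R0 := by
    have := hball (show x - R0 ∈ closedBall x R0 by
      rw [mem_closedBall, Real.dist_eq]; simp [abs_of_pos hR0])
    exact this.1
  have hx2 : x + R0 < b := by
    have := hball (show x + R0 ∈ closedBall x R0 by
      rw [mem_closedBall, Real.dist_eq]; simp [abs_of_pos hR0])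
    exact this.2
  -- choose the level
  have ht3 : Tendsto (fun k : ℕ => ((3 : ℝ) ^ k)) atTop atTop :=
    tendsto_pow_atTop_atTop_of_one_lt (by norm_num)
  have htA : Tendsto (fun k : ℕ => ((3 : ℝ) ^ k) ^ (lam - 1)) atTop atTop :=
    (tendsto_rpow_atTop hl1).comp ht3
  have htB : Tendsto (fun k : ℕ => ((3 : ℝ) ^ k) ^ (-τ)) atTop (𝓝 0) :=
    (tendsto_rpow_neg_atTop hτ0).comp ht3
  obtain ⟨k, hk1, hk2, hk3, hk4, hk5, hk6⟩ :=
    ((htA.eventually_ge_atTop (6 * K0)).and ((htA.eventually_ge_atTop (72 / R0)).and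
      ((htB.eventually (gt_mem_nhds hδ)).and ((htB.eventually (gt_mem_nhds hR0)).and
        ((eventually_ge_atTop j).and (htA.eventually_ge_atTop 24)))))).exists
  obtain ⟨q, hq⟩ : ∃ q : ℕ, q = 3 ^ k := ⟨_, rfl⟩
  have hqR : (q : ℝ) = (3 : ℝ) ^ k := by rw [hq]; push_cast; ring
  rw [← hqR] at hk1 hk2 hk3 hk4 hk6
  have hq1 : 1 ≤ q := by rw [hq]; exact Nat.one_le_pow _ _ (by norm_num)
  have hq1R : (1 : ℝ) ≤ q := by exact_mod_cast hq1
  have hqpos : (0 : ℝ) < q := by linarith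
  have hjq : j ≤ q := by rw [hq]; exact hk5.trans (Nat.lt_pow_self (by norm_num)).le
  -- choose `i`
  have hbase : (1 : ℝ) ≤ 6 * (q : ℝ) ^ (2 - lam) := by
    have : (1 : ℝ) ≤ (q : ℝ) ^ (2 - lam) := Real.one_le_rpow hq1R (by linarith)
    linarith
  obtain ⟨n, hn1, hn2⟩ := exists_nat_pow_near hbase (by norm_num : (1 : ℝ) < 2)
  obtain ⟨D, hD⟩ : ∃ D : ℕ, D = 2 ^ (n + 1) := ⟨_, rfl⟩
  have hDR : (D : ℝ) = 2 ^ (n + 1) := by rw [hD]; push_cast; ring
  have hD1 : 6 * (q : ℝ) ^ (2 - lam) < D := by rw [hDR]; exact hn2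
  have hD2 : (D : ℝ) ≤ 12 * (q : ℝ) ^ (2 - lam) := by rw [hDR, pow_succ]; linarith
  have hDpos : (0 : ℝ) < D := by linarith
  have hDnat : 0 < D := by exact_mod_cast hDpos
  have hqq : (q : ℝ) ^ (2 - lam) * (q : ℝ) ^ (lam - 1) = q := by
    rw [← Real.rpow_add hqpos]
    have : 2 - lam + (lam - 1) = 1 := by ring
    rw [this, Real.rpow_one]
  have hQpos : 0 < (q : ℝ) ^ (lam - 1) := by positivity
  set Q : ℝ := (q : ℝ) ^ (lam - 1) with hQ
  -- `h = q / D`
  set h : ℝ := q / D with hh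
  have hh1 : Q / 12 ≤ h := by
    rw [hh, div_le_div_iff₀ (by norm_num) hDpos]
    calc Q * D ≤ Q * (12 * (q : ℝ) ^ (2 - lam)) := mul_le_mul_of_nonneg_left hD2 hQpos.le
      _ = 12 * ((q : ℝ) ^ (2 - lam) * Q) := by ring
      _ = q * 12 := by linear_combination 12 * hqq
  have hh2 : h ≤ Q / 6 := by
    rw [hh, div_le_div_iff₀ hDpos (by norm_num)]
    calc (q : ℝ) * 6 = Q * (6 * (q : ℝ) ^ (2 - lam)) := by linear_combination (-6) * hqq
      _ ≤ Q * D := mul_le_mul_of_nonneg_left hD1.le hQpos.le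
  have hhpos : 0 < h := by positivity
  set α : ℝ := ((x - R0 / 2) * h - 1) / 3 with hα
  set β : ℝ := ((x + R0 / 2) * h - 1) / 3 with hβ
  have hRh : 6 ≤ R0 * h := by
    have h72 : 72 ≤ R0 * Q := by
      have := hk2
      rw [div_le_iff₀ hR0] at this
      linarith
    nlinarith
  have hα0 : 0 ≤ α := by
    rw [hα]
    have : 1 ≤ (x - R0 / 2) * h := by nlinarith
    linarith
  set pt : ℕ → ℝ := fun t => (((3 * t + 1) * D : ℕ) : ℝ) / q with hpt
  have hpt' : ∀ t, pt t = (3 * t + 1) / h := by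
    intro t; simp only [hpt, hh]; push_cast; field_simp
  set F : Finset ℝ := (Finset.Icc ⌈α⌉₊ ⌊β⌋₊).image pt with hF
  have hinj : Function.Injective pt := by
    intro t t' htt
    rw [hpt', hpt'] at htt
    have h3 := (div_left_inj' hhpos.ne').1 htt
    have h4 : (t : ℝ) = t' := by linarith
    exact_mod_cast h4
  have hmem : ∀ y ∈ F, ∃ t : ℕ, y = pt t ∧ α ≤ t ∧ (t : ℝ) ≤ β := by
    intro y hy
    rw [hF, Finset.mem_image] at hy
    obtain ⟨t, ht, rfl⟩ := hy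
    rw [Finset.mem_Icc] at ht
    have hβ0 : 0 ≤ β := by
      rw [hβ]
      have : 1 ≤ (x + R0 / 2) * h := by nlinarith
      linarith
    exact ⟨t, rfl, (Nat.ceil_le.1 ht.1), (Nat.le_floor_iff hβ0).1 ht.2⟩
  have hin : ∀ t : ℕ, α ≤ t → (t : ℝ) ≤ β → |pt t - x| ≤ R0 / 2 := by
    intro t h3 h4
    rw [hpt', abs_le]
    rw [hα, div_le_iff₀ (by norm_num)] at h3
    rw [hβ, le_div_iff₀ (by norm_num)] at h4
    constructor
    · have : x - R0 / 2 ≤ (3 * t + 1) / h := by rw [le_div_iff₀ hhpos]; linarith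
      linarith
    · have : (3 * t + 1) / h ≤ x + R0 / 2 := by rw [div_le_iff₀ hhpos]; linarith
      linarith
  refine ⟨Q / 6, (q : ℝ) ^ (-τ) / 8, F, by linarith, by positivity, by positivity, ?_, ?_, ?_, ?_,
    ?_, ?_⟩
  · have : 0 < (q : ℝ) ^ (-τ) := by positivity
    linarith
  · -- `c N^(-1/σ) ≤ r`
    have e1 : (Q / 6) ^ (-(1 / ((lam - 1) / τ))) = (q : ℝ) ^ (-τ) * (6 : ℝ) ^ (τ / (lam - 1)) := by
      have e2 : -(1 / ((lam - 1) / τ)) = -(τ / (lam - 1)) := by rw [one_div_div]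
      rw [e2, Real.div_rpow hQpos.le (by norm_num), hQ, ← Real.rpow_mul hqpos.le]
      have e3 : (lam - 1) * -(τ / (lam - 1)) = -τ := by field_simp
      rw [e3, Real.rpow_neg (by norm_num : (0 : ℝ) ≤ 6), div_inv_eq_mul]
    rw [e1]
    have e4 : (6 : ℝ) ^ (-(τ / (lam - 1))) * (6 : ℝ) ^ (τ / (lam - 1)) = 1 := by
      rw [← Real.rpow_add (by norm_num)]; simp
    refine le_of_eq ?_
    calc (6 : ℝ) ^ (-(τ / (lam - 1))) / 8 * ((q : ℝ) ^ (-τ) * (6 : ℝ) ^ (τ / (lam - 1)))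
        = ((6 : ℝ) ^ (-(τ / (lam - 1))) * (6 : ℝ) ^ (τ / (lam - 1))) * (q : ℝ) ^ (-τ) / 8 := by
          ring
      _ = _ := by rw [e4]; ring
  · -- `4 r N ≤ 1`
    have e1 : (q : ℝ) ^ (-τ) * Q ≤ 1 := by
      rw [hQ, ← Real.rpow_add hqpos]
      exact Real.rpow_le_one_of_one_le_of_nonpos hq1R (by linarith)
    nlinarith
  · rw [hF, Finset.card_image_of_injective _ hinj]
    have h3 := card_Icc_ge α β hα0
    have h4 : β - α = R0 * h / 3 := by rw [hα, hβ]; ring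
    have h5 : R0 * (Q / 6) / 12 ≤ R0 * h / 6 := by
      have : R0 * (Q / 12) ≤ R0 * h := mul_le_mul_of_nonneg_left hh1 hR0.le
      linarith
    linarith
  · intro y hy y' hy' hne
    obtain ⟨t, rfl, -, -⟩ := hmem y hy
    obtain ⟨t', rfl, -, -⟩ := hmem y' hy'
    have htt : t ≠ t' := fun h => hne (by rw [h])
    have h3 : (1 : ℝ) ≤ |(t : ℝ) - t'| := by
      have : (1 : ℤ) ≤ |(t : ℤ) - t'| := Int.one_le_abs (by omega)
      exact_mod_cast this
    rw [hpt', hpt', ← sub_div, abs_div, abs_of_pos hhpos]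
    have h4 : |(3 * (t : ℝ) + 1) - (3 * t' + 1)| = 3 * |(t : ℝ) - t'| := by
      rw [show (3 * (t : ℝ) + 1) - (3 * t' + 1) = 3 * ((t : ℝ) - t') by ring, abs_mul]
      norm_num
    rw [h4, div_le_div_iff₀ (by positivity) hhpos]
    nlinarith
  · intro y hy
    obtain ⟨t, rfl, ht1, ht2⟩ := hmem y hy
    have h3 := hin t ht1 ht2
    have hrpos : 0 < (q : ℝ) ^ (-τ) := by positivity
    have hr2 : (q : ℝ) ^ (-τ) / 8 ≤ R0 / 2 := by linarith
    constructor
    · intro z hz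
      rw [mem_closedBall, Real.dist_eq] at hz ⊢
      have : z - x = (z - pt t) + (pt t - x) := by ring
      rw [this]
      exact (abs_add_le _ _).trans (by linarith)
    · intro z hz
      rw [mem_closedBall, Real.dist_eq] at hz
      rw [abs_le] at h3
      have hp0 : 0 < pt t := by linarith [h3.1]
      have hp1 : pt t < 1 := by linarith [h3.2]
      have hpq : (3 * t + 1) * D < q := by
        have h4 : (((3 * t + 1) * D : ℕ) : ℝ) < q := by
          have : (((3 * t + 1) * D : ℕ) : ℝ) / q < 1 := hp1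
          rwa [div_lt_one hqpos] at this
        exact_mod_cast h4
      refine ⟨(3 * t + 1) * D, q, hjq, by positivity, hpq, ?_, ?_, ?_⟩
      · rw [hq, hD]
        refine Nat.Coprime.pow_right k (Nat.Coprime.mul_left ?_ ?_)
        · rw [Nat.coprime_comm, Nat.Prime.coprime_iff_not_dvd Nat.prime_three]
          omega
        · exact Nat.Coprime.pow_left _ (by norm_num)
      · have : |z - pt t| ≤ (q : ℝ) ^ (-τ) := by linarith
        exact this
      · have h4 : R ((3 * t + 1) * D * (q - (3 * t + 1) * D) * q) ≤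
            (3 * t + 1) * 2 * (q - (3 * t + 1) * D) * 3 := by
          refine R_le _ _ ?_ ?_
          · have : q - (3 * t + 1) * D ≠ 0 := by omega
            positivity
          · intro p hp
            have hpp := Nat.prime_of_mem_primeFactors hp
            have hpd := Nat.dvd_of_mem_primeFactors hp
            rcases (Nat.Prime.dvd_mul hpp).mp hpd with h5 | h5
            · rcases (Nat.Prime.dvd_mul hpp).mp h5 with h6 | h6
              · rcases (Nat.Prime.dvd_mul hpp).mp h6 with h7 | h7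
                · exact Dvd.dvd.mul_right (Dvd.dvd.mul_right (Dvd.dvd.mul_right h7 _) _) _
                · rw [hD] at h7
                  have := hpp.dvd_of_dvd_pow h7
                  exact Dvd.dvd.mul_right (Dvd.dvd.mul_right (Dvd.dvd.mul_left this _) _) _
              · exact Dvd.dvd.mul_right (Dvd.dvd.mul_left h6 _) _
            · rw [hq] at h5
              exact Dvd.dvd.mul_left (hpp.dvd_of_dvd_pow h5) _
        have h5 : ((R ((3 * t + 1) * D * (q - (3 * t + 1) * D) * q) : ℕ) : ℝ) ≤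
            (3 * t + 1) * 2 * q * 3 := by
          have h6 : (3 * t + 1) * 2 * (q - (3 * t + 1) * D) * 3 ≤ (3 * t + 1) * 2 * q * 3 := by
            gcongr; omega
          exact_mod_cast h4.trans h6
        rw [one_mul]
        refine h5.trans ?_
        have h6 : (3 * (t : ℝ) + 1) < h := by
          rw [hpt', div_lt_one hhpos] at hp1
          exact hp1
        have h7 : (q : ℝ) ^ lam = Q * q := by
          rw [hQ]
          nth_rewrite 3 [← Real.rpow_one (q : ℝ)]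
          rw [← Real.rpow_add hqpos]; congr 1; ring
        rw [h7]
        nlinarith

end Pool.Agent.H70HD
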