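import Pool.Agent.H70HD.Step

/-!
Counting coprime pairs `(3 t + 1, 6 v + 1)` with `v` in a dyadic range and `t` in an interval
depending on `v`.
-/

set_option autoImplicit false

namespace Pool.Agent.H70HD

/-- numbers `n` with `a n + 1` divisible by `m`, in an interval -/
theorem card_cong (S : Finset ℕ) (m a : ℕ) (hm : 0 < m) (L : ℝ) (hL : 0 ≤ L)
    (h : ∀ n ∈ S, m ∣ a * n + 1) (hd : ∀ n ∈ S, ∀ n' ∈ S, |(n : ℝ) - n'| ≤ L) :
    (S.card : ℝ) ≤ L / m + 1 := by
  classical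
  have hinj : Function.Injective (fun n : ℕ => (n : ℝ)) := Nat.cast_injective
  have hm0 : (0 : ℝ) < m := by exact_mod_cast hm
  have hc : ((S.image (fun n : ℕ => (n : ℝ))).card : ℝ) ≤ L * (1 / m) + 1 := by
    refine card_spaced _ (1 / m) L (by positivity) hL ?_ ?_
    · intro y hy y' hy' hne
      rw [Finset.mem_image] at hy hy'
      obtain ⟨n, hn, rfl⟩ := hy
      obtain ⟨n', hn', rfl⟩ := hy'
      have hcop : IsCoprime (m : ℤ) (a : ℤ) := by
        obtain ⟨c, hc⟩ := h n hn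
        refine ⟨c, -n, ?_⟩
        have hc' : ((a : ℤ) * n + 1) = m * c := by exact_mod_cast hc
        linear_combination -hc'
      have h1 : (m : ℤ) ∣ (n : ℤ) - n' := by
        have e1 : (m : ℤ) ∣ ((a * n + 1 : ℕ) : ℤ) := Int.natCast_dvd_natCast.2 (h n hn)
        have e2 : (m : ℤ) ∣ ((a * n' + 1 : ℕ) : ℤ) := Int.natCast_dvd_natCast.2 (h n' hn')
        have e3 : (m : ℤ) ∣ (a : ℤ) * ((n : ℤ) - n') := by
          have := dvd_sub e1 e2
          push_cast at this
          have e4 : (a : ℤ) * ((n : ℤ) - n') = ((a : ℤ) * n + 1) - ((a : ℤ) * n' + 1) := by ring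
          rw [e4]
          exact this
        exact hcop.dvd_of_dvd_mul_left e3
      have hne0 : (n : ℤ) - n' ≠ 0 := by
        intro h0
        apply hne
        have : (n : ℤ) = n' := by linarith
        exact_mod_cast this
      have h2 : (m : ℤ) ≤ |(n : ℤ) - n'| :=
        Int.le_of_dvd (abs_pos.2 hne0) ((dvd_abs _ _).2 h1)
      rw [one_div_one_div]
      exact_mod_cast h2
    · intro y hy y' hy'
      rw [Finset.mem_image] at hy hy'
      obtain ⟨n, hn, rfl⟩ := hy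
      obtain ⟨n', hn', rfl⟩ := hy'
      exact hd n hn n' hn'
  rw [Finset.card_image_of_injective _ hinj, mul_one_div] at hc
  exact hc

theorem sum_sq (n : ℕ) : ∑ m ∈ Finset.Icc 5 n, 1 / (m : ℝ) ^ 2 ≤ 1 / 4 := by
  have key : ∀ n : ℕ, ∑ m ∈ Finset.Icc 5 (n + 4), 1 / (m : ℝ) ^ 2 ≤ 1 / 4 - 1 / ((n : ℝ) + 4) := by
    intro n
    induction n with
    | zero => norm_num
    | succ n ih =>
      rw [show n + 1 + 4 = (n + 4) + 1 by ring, Finset.sum_Icc_succ_top (by omega)]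
      have h1 : 1 / (((n + 4 + 1 : ℕ) : ℝ)) ^ 2 ≤ 1 / ((n : ℝ) + 4) - 1 / ((n : ℝ) + 1 + 4) := by
        push_cast
        have e : 1 / ((n : ℝ) + 4) - 1 / ((n : ℝ) + 1 + 4) =
            1 / (((n : ℝ) + 4) * ((n : ℝ) + 4 + 1)) := by
          field_simp; ring
        rw [e]
        apply one_div_le_one_div_of_le (by positivity)
        nlinarith
      push_cast at h1 ⊢
      linarith
  by_cases hn : 4 ≤ n
  · obtain ⟨m, rfl⟩ := Nat.exists_eq_add_of_le hn
    have := key m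
    rw [show m + 4 = 4 + m by ring] at this
    have h2 : 0 ≤ 1 / ((m : ℝ) + 4) := by positivity
    linarith
  · rw [Finset.Icc_eq_empty (by omega)]
    simp

theorem sum_inv (n : ℕ) : ∑ m ∈ Finset.Icc 5 n, 1 / (m : ℝ) ≤ 2 * Real.sqrt n := by
  induction n with
  | zero => simp
  | succ n ih =>
    by_cases hn : 5 ≤ n + 1
    · rw [Finset.sum_Icc_succ_top hn]
      have h1 : 1 / ((n + 1 : ℕ) : ℝ) ≤ 2 * Real.sqrt ((n + 1 : ℕ) : ℝ) - 2 * Real.sqrt n := by
        push_cast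
        have hs1 : Real.sqrt ((n : ℝ) + 1) ^ 2 = (n : ℝ) + 1 := Real.sq_sqrt (by positivity)
        have hs2 : Real.sqrt (n : ℝ) ^ 2 = (n : ℝ) := Real.sq_sqrt (by positivity)
        have hs3 : Real.sqrt (n : ℝ) ≤ Real.sqrt ((n : ℝ) + 1) := Real.sqrt_le_sqrt (by linarith)
        have hs4 : 1 ≤ Real.sqrt ((n : ℝ) + 1) := by
          rw [Real.one_le_sqrt]; linarith [Nat.cast_nonneg (α := ℝ) n]
        have hs5 : 0 ≤ Real.sqrt (n : ℝ) := Real.sqrt_nonneg _
        set u := Real.sqrt ((n : ℝ) + 1)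
        set v := Real.sqrt (n : ℝ)
        have e : (u - v) * (u + v) = 1 := by nlinarith
        rw [← hs1, div_le_iff₀ (by positivity)]
        -- 1 ≤ (2u - 2v) u^2
        have h5 : (u - v) * (u + v) ≤ (u - v) * (2 * u ^ 2) := by
          apply mul_le_mul_of_nonneg_left _ (by linarith)
          nlinarith
        nlinarith
      linarith
    · rw [Finset.Icc_eq_empty (by omega)]
      simp

/-- the coprime pairs -/
noncomputable def GG (V : ℕ) (α β : ℕ → ℝ) : Finset (Σ _ : ℕ, ℕ) :=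
  ((Finset.Ico V (2 * V)).sigma (fun v => Finset.Icc ⌈α v⌉₊ ⌊β v⌋₊)).filter
    (fun z => Nat.Coprime (3 * z.2 + 1) (6 * z.1 + 1))

theorem count_lower (V : ℕ) (hV : 20000 ≤ V) (α β : ℕ → ℝ) (K : ℝ) (hK : 1 ≤ K)
    (hα : ∀ v ∈ Finset.Ico V (2 * V), 0 ≤ α v)
    (hlo : ∀ v ∈ Finset.Ico V (2 * V), 2 * K * V ≤ β v - α v)
    (hhi : ∀ v ∈ Finset.Ico V (2 * V), β v - α v ≤ 4 * K * V)
    (hcard : ∀ v ∈ Finset.Ico V (2 * V),
      β v - α v - 1 ≤ ((Finset.Icc ⌈α v⌉₊ ⌊β v⌋₊).card : ℝ)) :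
    K * (V : ℝ) ^ 2 / 2 ≤ ((GG V α β).card : ℝ) := by
  classical
  have hVR : (20000 : ℝ) ≤ V := by exact_mod_cast hV
  set S : Finset (Σ _ : ℕ, ℕ) :=
    (Finset.Ico V (2 * V)).sigma (fun v => Finset.Icc ⌈α v⌉₊ ⌊β v⌋₊) with hS
  have hcardS : (V : ℝ) * (2 * K * V - 1) ≤ (S.card : ℝ) := by
    rw [hS, Finset.card_sigma]
    push_cast
    have h1 : ∑ v ∈ Finset.Ico V (2 * V), (2 * K * V - 1) ≤
        ∑ v ∈ Finset.Ico V (2 * V), ((Finset.Icc ⌈α v⌉₊ ⌊β v⌋₊).card : ℝ) := by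
      apply Finset.sum_le_sum
      intro v hv
      linarith [hlo v hv, hcard v hv]
    rw [Finset.sum_const, Nat.card_Ico, nsmul_eq_mul] at h1
    have e : ((2 * V - V : ℕ) : ℝ) = V := by
      congr 1; omega
    rw [e] at h1
    exact h1
  set Bad : Finset (Σ _ : ℕ, ℕ) :=
    S.filter (fun z => ¬ Nat.Coprime (3 * z.2 + 1) (6 * z.1 + 1)) with hBad
  have hsum : (GG V α β).card + Bad.card = S.card := by
    rw [hBad]
    exact Finset.card_filter_add_card_filter_not _
  have hsub : Bad ⊆ (Finset.Icc 5 (12 * V)).biUnion (fun m =>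
      ((Finset.Ico V (2 * V)).filter (fun v => m ∣ 6 * v + 1)).sigma
        (fun v => (Finset.Icc ⌈α v⌉₊ ⌊β v⌋₊).filter (fun t => m ∣ 3 * t + 1))) := by
    rintro ⟨v, t⟩ hz
    rw [hBad, Finset.mem_filter, hS, Finset.mem_sigma] at hz
    obtain ⟨⟨hv, ht⟩, hz3⟩ := hz
    simp only at hv ht hz3
    rw [Nat.Prime.not_coprime_iff_dvd] at hz3
    obtain ⟨p, hp, hp1, hp2⟩ := hz3
    rw [Finset.mem_Ico] at hv
    have hp5 : 5 ≤ p := by
      by_contra hlt
      push Not at hlt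
      have h2 := hp.two_le
      interval_cases p
      · omega
      · omega
      · exact absurd hp (by norm_num)
    have hple : p ≤ 12 * V := by
      have := Nat.le_of_dvd (by omega) hp2
      omega
    rw [Finset.mem_biUnion]
    refine ⟨p, Finset.mem_Icc.2 ⟨hp5, hple⟩, ?_⟩
    rw [Finset.mem_sigma]
    exact ⟨Finset.mem_filter.2 ⟨Finset.mem_Ico.2 hv, hp2⟩, Finset.mem_filter.2 ⟨ht, hp1⟩⟩
  have hbad : (Bad.card : ℝ) ≤ ∑ m ∈ Finset.Icc 5 (12 * V),
      ((V : ℝ) / m + 1) * (4 * K * V / m + 1) := by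
    have h1 := (Finset.card_le_card hsub).trans Finset.card_biUnion_le
    have h2 : (Bad.card : ℝ) ≤ ∑ m ∈ Finset.Icc 5 (12 * V),
      ((((Finset.Ico V (2 * V)).filter (fun v => m ∣ 6 * v + 1)).sigma
        (fun v => (Finset.Icc ⌈α v⌉₊ ⌊β v⌋₊).filter (fun t => m ∣ 3 * t + 1))).card : ℝ) := by
      exact_mod_cast h1
    refine h2.trans (Finset.sum_le_sum ?_)
    intro m hm
    rw [Finset.mem_Icc] at hm
    have hm0 : 0 < m := by omega
    have hm0R : (0 : ℝ) < m := by exact_mod_cast hm0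
    rw [Finset.card_sigma]
    push_cast
    have h3 : ∀ v ∈ (Finset.Ico V (2 * V)).filter (fun v => m ∣ 6 * v + 1),
        (((Finset.Icc ⌈α v⌉₊ ⌊β v⌋₊).filter (fun t => m ∣ 3 * t + 1)).card : ℝ) ≤
          4 * K * V / m + 1 := by
      intro v hv
      have hv1 := (Finset.mem_filter.1 hv).1
      refine card_cong _ m 3 hm0 (4 * K * V) (by positivity) ?_ ?_
      · intro n hn
        exact (Finset.mem_filter.1 hn).2
      · intro n hn n' hn'
        have e1 := (Finset.mem_filter.1 hn).1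
        have e2 := (Finset.mem_filter.1 hn').1
        rw [Finset.mem_Icc] at e1 e2
        have hβ0 : 0 ≤ β v := by
          have h5 := hlo v hv1
          have h6 := hα v hv1
          have : 0 ≤ 2 * K * V := by positivity
          linarith
        have f1 := Nat.ceil_le.1 e1.1
        have f2 := (Nat.le_floor_iff hβ0).1 e1.2
        have f3 := Nat.ceil_le.1 e2.1
        have f4 := (Nat.le_floor_iff hβ0).1 e2.2
        have f5 := hhi v hv1
        rw [abs_le]
        constructor <;> linarith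
    have h4 : ((((Finset.Ico V (2 * V)).filter (fun v => m ∣ 6 * v + 1)).card : ℕ) : ℝ) ≤
        (V : ℝ) / m + 1 := by
      refine card_cong _ m 6 hm0 V (by positivity) ?_ ?_
      · intro n hn
        exact (Finset.mem_filter.1 hn).2
      · intro n hn n' hn'
        have e1 := (Finset.mem_filter.1 hn).1
        have e2 := (Finset.mem_filter.1 hn').1
        rw [Finset.mem_Ico] at e1 e2
        have f1 : (V : ℝ) ≤ n := by exact_mod_cast e1.1
        have f2 : (n : ℝ) ≤ 2 * V := by exact_mod_cast e1.2.le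
        have f3 : (V : ℝ) ≤ n' := by exact_mod_cast e2.1
        have f4 : (n' : ℝ) ≤ 2 * V := by exact_mod_cast e2.2.le
        rw [abs_le]
        constructor <;> linarith
    refine (Finset.sum_le_sum h3).trans ?_
    rw [Finset.sum_const, nsmul_eq_mul]
    exact mul_le_mul_of_nonneg_right h4 (by positivity)
  have hexp : ∑ m ∈ Finset.Icc 5 (12 * V), ((V : ℝ) / m + 1) * (4 * K * V / m + 1) =
      4 * K * V ^ 2 * (∑ m ∈ Finset.Icc 5 (12 * V), 1 / (m : ℝ) ^ 2) +
      (V + 4 * K * V) * (∑ m ∈ Finset.Icc 5 (12 * V), 1 / (m : ℝ)) +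
      ∑ m ∈ Finset.Icc 5 (12 * V), (1 : ℝ) := by
    rw [Finset.mul_sum, Finset.mul_sum, ← Finset.sum_add_distrib, ← Finset.sum_add_distrib]
    apply Finset.sum_congr rfl
    intro m hm
    rw [Finset.mem_Icc] at hm
    have hm0R : (0 : ℝ) < m := by
      have : 0 < m := by omega
      exact_mod_cast this
    field_simp
    ring
  have hone : ∑ m ∈ Finset.Icc 5 (12 * V), (1 : ℝ) ≤ 12 * V := by
    rw [Finset.sum_const, Nat.card_Icc, nsmul_eq_mul, mul_one]
    have : (12 * V + 1 - 5 : ℕ) ≤ 12 * V := by omega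
    exact_mod_cast this
  have hsq := sum_sq (12 * V)
  have hin := sum_inv (12 * V)
  have hsqrt : Real.sqrt ((12 * V : ℕ) : ℝ) ≤ V / 40 := by
    rw [Real.sqrt_le_left (by positivity)]
    push_cast
    nlinarith
  have hKV : 0 < K * V := by positivity
  have h5 : 4 * K * V ^ 2 * (∑ m ∈ Finset.Icc 5 (12 * V), 1 / (m : ℝ) ^ 2) ≤ K * V ^ 2 := by
    have : 4 * K * (V : ℝ) ^ 2 * (∑ m ∈ Finset.Icc 5 (12 * V), 1 / (m : ℝ) ^ 2) ≤
        4 * K * (V : ℝ) ^ 2 * (1 / 4) := mul_le_mul_of_nonneg_left hsq (by positivity)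
    linarith
  have h6 : (V + 4 * K * V) * (∑ m ∈ Finset.Icc 5 (12 * V), 1 / (m : ℝ)) ≤
      (5 * K * V) * (V / 20) := by
    apply mul_le_mul _ (by linarith) _ (by positivity)
    · nlinarith
    · exact Finset.sum_nonneg fun m _ => by positivity
  have hsumR : ((GG V α β).card : ℝ) + (Bad.card : ℝ) = (S.card : ℝ) := by exact_mod_cast hsum
  rw [hexp] at hbad
  -- total : 2 K V^2 - V - (K V^2 + K V^2 / 4 + 12 V) ≥ K V^2 / 2
  have h7 : (13 : ℝ) * V ≤ K * V ^ 2 / 4 := by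
    have : (V : ℝ) * 52 ≤ V * (K * V) := by
      apply mul_le_mul_of_nonneg_left _ (by positivity)
      nlinarith
    nlinarith
  nlinarith

end Pool.Agent.H70HD
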