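import Pool.Agent.H70HD.CaseA
import Pool.Agent.H70HD.Count

/-!
Fractions `(3 t + 1) / ((6 v + 1) 3^k)` and the radical of `p (q - p) q`.
-/

set_option autoImplicit false

open Set Metric MeasureTheory Filter Topology

namespace Pool.Agent.H70HD

theorem rad_boundB (t v k q : ℕ) (hq : q = (6 * v + 1) * 3 ^ k) (hpq : 3 * t + 1 < q) :
    ((R ((3 * t + 1) * (q - (3 * t + 1)) * q) : ℕ) : ℝ) ≤ (q : ℝ) ^ 2 * (3 * (6 * v + 1)) := by
  have h4 : R ((3 * t + 1) * (q - (3 * t + 1)) * q) ≤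
      (3 * t + 1) * (q - (3 * t + 1)) * ((6 * v + 1) * 3) := by
    refine R_le _ _ ?_ ?_
    · have : q - (3 * t + 1) ≠ 0 := by omega
      positivity
    · intro p hp
      have hpp := Nat.prime_of_mem_primeFactors hp
      have hpd := Nat.dvd_of_mem_primeFactors hp
      rcases (Nat.Prime.dvd_mul hpp).mp hpd with h5 | h5
      · exact Dvd.dvd.mul_right h5 _
      · rw [hq] at h5
        rcases (Nat.Prime.dvd_mul hpp).mp h5 with h6 | h6
        · exact Dvd.dvd.mul_left (Dvd.dvd.mul_right h6 _) _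
        · exact Dvd.dvd.mul_left (Dvd.dvd.mul_left (hpp.dvd_of_dvd_pow h6) _) _
  have h6 : (3 * t + 1) * (q - (3 * t + 1)) * ((6 * v + 1) * 3) ≤ q * q * ((6 * v + 1) * 3) := by
    have e1 : q - (3 * t + 1) ≤ q := Nat.sub_le _ _
    have e2 : 3 * t + 1 ≤ q := hpq.le
    gcongr
  have h7 : ((R ((3 * t + 1) * (q - (3 * t + 1)) * q) : ℕ) : ℝ) ≤
      ((q * q * ((6 * v + 1) * 3) : ℕ) : ℝ) := by exact_mod_cast h4.trans h6
  refine h7.trans (le_of_eq ?_)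
  push_cast
  ring

theorem copB (t v k : ℕ) (h : Nat.Coprime (3 * t + 1) (6 * v + 1)) :
    Nat.Coprime (3 * t + 1) ((6 * v + 1) * 3 ^ k) := by
  refine Nat.Coprime.mul_right h (Nat.Coprime.pow_right k ?_)
  rw [Nat.coprime_comm, Nat.Prime.coprime_iff_not_dvd Nat.prime_three]
  omega

theorem injB (t t' v v' : ℕ) (h : Nat.Coprime (3 * t + 1) (6 * v + 1))
    (h' : Nat.Coprime (3 * t' + 1) (6 * v' + 1))
    (he : (3 * t + 1) * (6 * v' + 1) = (3 * t' + 1) * (6 * v + 1)) : v = v' ∧ t = t' := by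
  have h1 : 3 * t + 1 ∣ 3 * t' + 1 := by
    apply h.dvd_of_dvd_mul_right
    rw [← he]; exact dvd_mul_right _ _
  have h2 : 3 * t' + 1 ∣ 3 * t + 1 := by
    apply h'.dvd_of_dvd_mul_right
    rw [he]; exact dvd_mul_right _ _
  have h3 := Nat.dvd_antisymm h1 h2
  rw [h3] at he
  have h4 : 6 * v' + 1 = 6 * v + 1 := Nat.eq_of_mul_eq_mul_left (by omega) he
  omega

/-- the choice of the size of the moduli -/
theorem chooseV (lam M : ℝ) (h1 : 2 < lam) (h2 : lam < 3) (hM : 1 ≤ M)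
    (hZ : 12 * 20001 ≤ (M ^ (lam - 2) / 3) ^ (1 / (3 - lam))) :
    ∃ V : ℕ, 20000 ≤ V ∧ (12 * (V : ℝ)) ^ (3 - lam) ≤ M ^ (lam - 2) / 3 ∧
      M ^ (lam - 2) / 6 ≤ (12 * (V : ℝ)) ^ (3 - lam) := by
  set Z : ℝ := (M ^ (lam - 2) / 3) ^ (1 / (3 - lam)) with hZd
  have hl : 0 < 3 - lam := by linarith
  have hM0 : 0 < M := by linarith
  have hf0 : 0 ≤ M ^ (lam - 2) / 3 := by positivity
  have hZe : Z ^ (3 - lam) = M ^ (lam - 2) / 3 := by
    rw [hZd, ← Real.rpow_mul hf0, one_div_mul_cancel hl.ne', Real.rpow_one]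
  have hZ0 : 0 ≤ Z := by linarith
  refine ⟨⌊Z / 12⌋₊, ?_, ?_, ?_⟩
  · refine Nat.le_floor ?_
    push_cast
    linarith
  · rw [← hZe]
    refine Real.rpow_le_rpow (by positivity) ?_ hl.le
    have := Nat.floor_le (show 0 ≤ Z / 12 by positivity)
    linarith
  · have h3 := Nat.lt_floor_add_one (Z / 12)
    have h4 : Z / 2 ≤ 12 * ((⌊Z / 12⌋₊ : ℕ) : ℝ) := by linarith
    have h5 : (Z / 2) ^ (3 - lam) ≤ (12 * ((⌊Z / 12⌋₊ : ℕ) : ℝ)) ^ (3 - lam) :=
      Real.rpow_le_rpow (by positivity) h4 hl.le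
    have h6 : (Z / 2) ^ (3 - lam) = M ^ (lam - 2) / 3 * (1 / 2) ^ (3 - lam) := by
      rw [← hZe, ← Real.mul_rpow hZ0 (by norm_num)]
      congr 1; ring
    have h7 : (1 / 2 : ℝ) ≤ (1 / 2) ^ (3 - lam) := by
      conv_lhs => rw [← Real.rpow_one (1 / 2 : ℝ)]
      exact Real.rpow_le_rpow_of_exponent_ge (by norm_num) (by norm_num) (by linarith)
    have h8 : M ^ (lam - 2) / 3 * (1 / 2) ≤ M ^ (lam - 2) / 3 * (1 / 2) ^ (3 - lam) :=
      mul_le_mul_of_nonneg_left h7 hf0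
    linarith

theorem caseB (lam τ : ℝ) (h1 : 2 < lam) (h2 : lam < 3) (hτ : lam - 1 ≤ τ) (a b : ℝ)
    (ha : 0 ≤ a) (hb : b ≤ 1) (x R0 : ℝ) (hR0 : 0 < R0) (hball : closedBall x R0 ⊆ Ioo a b)
    (j : ℕ) (K0 δ : ℝ) (hδ : 0 < δ) :
    ∃ (N r : ℝ) (F : Finset ℝ), K0 ≤ N ∧ 0 < N ∧ 0 < r ∧ r ≤ δ ∧
      ((6 : ℝ) ^ (-(τ / (lam - 1))) / 8) * N ^ (-(1 / ((lam - 1) / τ))) ≤ r ∧
      4 * r * N ≤ 1 ∧ R0 * N / 288 ≤ F.card ∧
      (∀ y ∈ F, ∀ y' ∈ F, y ≠ y' → 1 / N ≤ |y - y'|) ∧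
      ∀ y ∈ F, closedBall y r ⊆ closedBall x R0 ∧ closedBall y r ⊆ VV τ lam 1 j := by
  classical
  have hl1 : 0 < lam - 1 := by linarith
  have hl2 : 0 < lam - 2 := by linarith
  have hl3 : 0 < 3 - lam := by linarith
  have hτ0 : 0 < τ := by linarith
  have hx1 : a < x - R0 := by
    have := hball (show x - R0 ∈ closedBall x R0 by
      rw [mem_closedBall, Real.dist_eq]; simp [abs_of_pos hR0])
    exact this.1
  have hx2 : x + R0 < b := by
    have := hball (show x + R0 ∈ closedBall x R0 by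
      rw [mem_closedBall, Real.dist_eq]; simp [abs_of_pos hR0])
    exact this.2
  -- choose the level
  have ht3 : Tendsto (fun k : ℕ => ((3 : ℝ) ^ k)) atTop atTop :=
    tendsto_pow_atTop_atTop_of_one_lt (by norm_num)
  have htA : Tendsto (fun k : ℕ => (((3 : ℝ) ^ k) ^ (lam - 2) / 3) ^ (1 / (3 - lam))) atTop
      atTop := by
    have e1 : Tendsto (fun k : ℕ => ((3 : ℝ) ^ k) ^ (lam - 2) / 3) atTop atTop :=
      ((tendsto_rpow_atTop hl2).comp ht3).atTop_div_const (by norm_num)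
    exact (tendsto_rpow_atTop (by positivity)).comp e1
  have htB : Tendsto (fun k : ℕ => ((3 : ℝ) ^ k) ^ (-τ)) atTop (𝓝 0) :=
    (tendsto_rpow_neg_atTop hτ0).comp ht3
  obtain ⟨k, hk1, hk2, hk3, hk4, hk5, hk6⟩ :=
    ((htA.eventually_ge_atTop (12 * 20001)).and ((ht3.eventually_ge_atTop (1 / R0)).and
      ((htB.eventually (gt_mem_nhds hδ)).and ((htB.eventually (gt_mem_nhds hR0)).and
        ((eventually_ge_atTop j).and (ht3.eventually_ge_atTop K0)))))).exists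
  have hM1 : (1 : ℝ) ≤ 3 ^ k := one_le_pow₀ (by norm_num)
  obtain ⟨V, hV, hV1, hV2⟩ := chooseV lam (3 ^ k) h1 h2 hM1 hk1
  obtain ⟨M, hM⟩ : ∃ M : ℝ, M = (3 : ℝ) ^ k := ⟨_, rfl⟩
  rw [← hM] at hM1 hV1 hV2 hk1 hk2 hk3 hk4 hk6
  have hMpos : 0 < M := by linarith
  have hVR : (20000 : ℝ) ≤ V := by exact_mod_cast hV
  obtain ⟨P, hP⟩ : ∃ P : ℝ, P = 12 * (V : ℝ) := ⟨_, rfl⟩
  rw [← hP] at hV1 hV2
  have hPpos : 0 < P := by rw [hP]; linarith
  have hP1 : 1 ≤ P := by rw [hP]; linarith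
  -- N, Q
  obtain ⟨Q, hQ⟩ : ∃ Q : ℝ, Q = P * M := ⟨_, rfl⟩
  obtain ⟨N, hN⟩ : ∃ N : ℝ, N = P ^ 2 * M := ⟨_, rfl⟩
  have hQpos : 0 < Q := by rw [hQ]; positivity
  have hNpos : 0 < N := by rw [hN]; positivity
  have hMQ : M ≤ Q := by rw [hQ]; nlinarith
  have hQ1 : 1 ≤ Q := hM1.trans hMQ
  have hMN : M ≤ N := by
    rw [hN]
    have : 1 ≤ P ^ 2 := one_le_pow₀ hP1
    nlinarith
  have hQl : Q ^ (lam - 1) = P ^ (lam - 1) * (M ^ (lam - 2) * M) := by
    rw [hQ, Real.mul_rpow hPpos.le hMpos.le]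
    congr 1
    nth_rewrite 3 [← Real.rpow_one M]
    rw [← Real.rpow_add hMpos]
    congr 1; ring
  have hPl : P ^ (3 - lam) * P ^ (lam - 1) = P ^ 2 := by
    rw [← Real.rpow_add hPpos, ← Real.rpow_natCast]
    congr 1
    push_cast
    ring
  have hPM : 0 < P ^ (lam - 1) * M := by positivity
  have hN1 : N ≤ Q ^ (lam - 1) / 3 := by
    have e : N = P ^ (3 - lam) * (P ^ (lam - 1) * M) := by rw [hN, ← hPl]; ring
    rw [e, hQl]
    calc P ^ (3 - lam) * (P ^ (lam - 1) * M) ≤ M ^ (lam - 2) / 3 * (P ^ (lam - 1) * M) :=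
          mul_le_mul_of_nonneg_right hV1 hPM.le
      _ = _ := by ring
  have hN2 : Q ^ (lam - 1) / 6 ≤ N := by
    have e : N = P ^ (3 - lam) * (P ^ (lam - 1) * M) := by rw [hN, ← hPl]; ring
    rw [e, hQl]
    calc P ^ (lam - 1) * (M ^ (lam - 2) * M) / 6 = M ^ (lam - 2) / 6 * (P ^ (lam - 1) * M) := by
          ring
      _ ≤ P ^ (3 - lam) * (P ^ (lam - 1) * M) := mul_le_mul_of_nonneg_right hV2 hPM.le
  -- the intervals
  set α : ℕ → ℝ := fun v => ((x - R0 / 2) * ((6 * v + 1) * M) - 1) / 3 with hα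
  set β : ℕ → ℝ := fun v => ((x + R0 / 2) * ((6 * v + 1) * M) - 1) / 3 with hβ
  have hKge : 1 ≤ R0 * M := by
    rw [div_le_iff₀ hR0] at hk2
    linarith
  have hw : ∀ v ∈ Finset.Ico V (2 * V), 6 * (V : ℝ) ≤ 6 * (v : ℝ) + 1 ∧
      6 * (v : ℝ) + 1 ≤ P := by
    intro v hv
    rw [Finset.mem_Ico] at hv
    have e1 : (V : ℝ) ≤ v := by exact_mod_cast hv.1
    have e2 : (v : ℝ) + 1 ≤ 2 * V := by
      have : v + 1 ≤ 2 * V := hv.2
      exact_mod_cast this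
    constructor
    · linarith
    · rw [hP]; linarith
  have hα0 : ∀ v ∈ Finset.Ico V (2 * V), 0 ≤ α v := by
    intro v hv
    obtain ⟨e1, e2⟩ := hw v hv
    simp only [hα]
    have e3 : R0 / 2 * (6 * V * M) ≤ (x - R0 / 2) * ((6 * v + 1) * M) := by
      apply mul_le_mul (by linarith) _ (by positivity) (by linarith)
      exact mul_le_mul_of_nonneg_right e1 hMpos.le
    have e4 : 1 ≤ R0 / 2 * (6 * V * M) := by nlinarith
    have : 0 ≤ (x - R0 / 2) * ((6 * v + 1) * M) - 1 := by linarith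
    positivity
  have hdiff : ∀ v, β v - α v = R0 * M * (6 * v + 1) / 3 := by
    intro v; simp only [hα, hβ]; ring
  have hlo : ∀ v ∈ Finset.Ico V (2 * V), 2 * (R0 * M) * V ≤ β v - α v := by
    intro v hv
    obtain ⟨e1, e2⟩ := hw v hv
    rw [hdiff]
    have := mul_le_mul_of_nonneg_left e1 (show 0 ≤ R0 * M by positivity)
    linarith
  have hhi : ∀ v ∈ Finset.Ico V (2 * V), β v - α v ≤ 4 * (R0 * M) * V := by
    intro v hv
    obtain ⟨e1, e2⟩ := hw v hv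
    rw [hdiff]
    have := mul_le_mul_of_nonneg_left e2 (show 0 ≤ R0 * M by positivity)
    rw [hP] at this
    linarith
  have hcount := count_lower V hV α β (R0 * M) hKge hα0 hlo hhi
    (fun v hv => card_Icc_ge (α v) (β v) (hα0 v hv))
  set pt : (Σ _ : ℕ, ℕ) → ℝ := fun z => (3 * (z.2 : ℝ) + 1) / ((6 * (z.1 : ℝ) + 1) * M) with hpt
  have hmem : ∀ z ∈ GG V α β, z.1 ∈ Finset.Ico V (2 * V) ∧ α z.1 ≤ z.2 ∧ (z.2 : ℝ) ≤ β z.1 ∧
      Nat.Coprime (3 * z.2 + 1) (6 * z.1 + 1) := by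
    intro z hz
    rw [GG, Finset.mem_filter, Finset.mem_sigma, Finset.mem_Icc] at hz
    obtain ⟨⟨e1, e2, e3⟩, e4⟩ := hz
    have hβ0 : 0 ≤ β z.1 := by
      have e5 := hlo z.1 e1
      have e6 := hα0 z.1 e1
      have : 0 ≤ 2 * (R0 * M) * V := by positivity
      linarith
    exact ⟨e1, Nat.ceil_le.1 e2, (Nat.le_floor_iff hβ0).1 e3, e4⟩
  have hinj : Set.InjOn pt (GG V α β : Set (Σ _ : ℕ, ℕ)) := by
    rintro ⟨v, t⟩ hz ⟨v', t'⟩ hz' he
    obtain ⟨-, -, -, e1⟩ := hmem _ hz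
    obtain ⟨-, -, -, e2⟩ := hmem _ hz'
    simp only [hpt] at he e1 e2
    rw [div_eq_div_iff (by positivity) (by positivity)] at he
    have e3 : (3 * (t : ℝ) + 1) * (6 * v' + 1) = (3 * t' + 1) * (6 * v + 1) := by
      have e4 : ((3 * (t : ℝ) + 1) * (6 * v' + 1)) * M = ((3 * t' + 1) * (6 * v + 1)) * M := by
        linear_combination he
      exact mul_right_cancel₀ hMpos.ne' e4
    have e5 : (3 * t + 1) * (6 * v' + 1) = (3 * t' + 1) * (6 * v + 1) := by exact_mod_cast e3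
    obtain ⟨rfl, rfl⟩ := injB t t' v v' e1 e2 e5
    rfl
  set F : Finset ℝ := (GG V α β).image pt with hF
  have hin : ∀ z ∈ GG V α β, |pt z - x| ≤ R0 / 2 := by
    intro z hz
    obtain ⟨-, h3, h4, -⟩ := hmem z hz
    simp only [hα] at h3
    simp only [hβ] at h4
    rw [div_le_iff₀ (by norm_num)] at h3
    rw [le_div_iff₀ (by norm_num)] at h4
    have hden : 0 < (6 * (z.1 : ℝ) + 1) * M := by positivity
    rw [abs_le]
    simp only [hpt]
    constructor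
    · have : x - R0 / 2 ≤ (3 * (z.2 : ℝ) + 1) / ((6 * (z.1 : ℝ) + 1) * M) := by
        rw [le_div_iff₀ hden]; linarith
      linarith
    · have : (3 * (z.2 : ℝ) + 1) / ((6 * (z.1 : ℝ) + 1) * M) ≤ x + R0 / 2 := by
        rw [div_le_iff₀ hden]; linarith
      linarith
  have hQτM : Q ^ (-τ) ≤ M ^ (-τ) := Real.rpow_le_rpow_of_nonpos hMpos hMQ (by linarith)
  have hQτpos : 0 < Q ^ (-τ) := by positivity
  refine ⟨N, Q ^ (-τ) / 8, F, hk6.trans hMN, hNpos, by positivity, by linarith, ?_, ?_, ?_,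
    ?_, ?_⟩
  · -- `c N^(-1/σ) ≤ r`
    have e0 : N ^ (-(1 / ((lam - 1) / τ))) ≤ (Q ^ (lam - 1) / 6) ^ (-(1 / ((lam - 1) / τ))) := by
      apply Real.rpow_le_rpow_of_nonpos (by positivity) hN2
      rw [one_div_div]
      have : 0 < τ / (lam - 1) := by positivity
      linarith
    have e1 : (Q ^ (lam - 1) / 6) ^ (-(1 / ((lam - 1) / τ))) =
        Q ^ (-τ) * (6 : ℝ) ^ (τ / (lam - 1)) := by
      have e2 : -(1 / ((lam - 1) / τ)) = -(τ / (lam - 1)) := by rw [one_div_div]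
      rw [e2, Real.div_rpow (by positivity) (by norm_num), ← Real.rpow_mul hQpos.le]
      have e3 : (lam - 1) * -(τ / (lam - 1)) = -τ := by field_simp
      rw [e3, Real.rpow_neg (by norm_num : (0 : ℝ) ≤ 6), div_inv_eq_mul]
    have e4 : (6 : ℝ) ^ (-(τ / (lam - 1))) * (6 : ℝ) ^ (τ / (lam - 1)) = 1 := by
      rw [← Real.rpow_add (by norm_num)]; simp
    calc (6 : ℝ) ^ (-(τ / (lam - 1))) / 8 * N ^ (-(1 / ((lam - 1) / τ)))
        ≤ (6 : ℝ) ^ (-(τ / (lam - 1))) / 8 * (Q ^ (lam - 1) / 6) ^ (-(1 / ((lam - 1) / τ))) :=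
          mul_le_mul_of_nonneg_left e0 (by positivity)
      _ = ((6 : ℝ) ^ (-(τ / (lam - 1))) * (6 : ℝ) ^ (τ / (lam - 1))) * Q ^ (-τ) / 8 := by
          rw [e1]; ring
      _ = _ := by rw [e4]; ring
  · -- `4 r N ≤ 1`
    have e1 : Q ^ (-τ) * Q ^ (lam - 1) ≤ 1 := by
      rw [← Real.rpow_add hQpos]
      exact Real.rpow_le_one_of_one_le_of_nonpos hQ1 (by linarith)
    have e2 : Q ^ (-τ) * N ≤ Q ^ (-τ) * (Q ^ (lam - 1) / 3) :=
      mul_le_mul_of_nonneg_left hN1 hQτpos.le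
    linarith
  · rw [hF, Finset.card_image_of_injOn hinj]
    have e : R0 * N / 288 = R0 * M * (V : ℝ) ^ 2 / 2 := by rw [hN, hP]; ring
    rw [e]; exact hcount
  · intro y hy y' hy' hne
    rw [hF, Finset.mem_image] at hy hy'
    obtain ⟨⟨v, t⟩, hz, rfl⟩ := hy
    obtain ⟨⟨v', t'⟩, hz', rfl⟩ := hy'
    obtain ⟨e1, -, -, -⟩ := hmem _ hz
    obtain ⟨e2, -, -, -⟩ := hmem _ hz'
    obtain ⟨-, f1⟩ := hw _ e1
    obtain ⟨-, f2⟩ := hw _ e2
    simp only [hpt] at hne f1 f2 ⊢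
    have hw0 : (0 : ℝ) < 6 * (v : ℝ) + 1 := by positivity
    have hw0' : (0 : ℝ) < 6 * (v' : ℝ) + 1 := by positivity
    have e3 : (3 * (t : ℝ) + 1) / ((6 * (v : ℝ) + 1) * M) -
        (3 * (t' : ℝ) + 1) / ((6 * (v' : ℝ) + 1) * M) =
        ((3 * (t : ℝ) + 1) * (6 * v' + 1) - (3 * t' + 1) * (6 * v + 1)) /
          ((6 * (v : ℝ) + 1) * (6 * v' + 1) * M) := by
      field_simp
    have e4 : (1 : ℝ) ≤ |(3 * (t : ℝ) + 1) * (6 * v' + 1) - (3 * t' + 1) * (6 * v + 1)| := by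
      have hne' : ((3 * (t : ℤ) + 1) * (6 * v' + 1) - (3 * t' + 1) * (6 * v + 1)) ≠ 0 := by
        intro h0
        apply hne
        rw [← sub_eq_zero, e3]
        have : ((3 * (t : ℝ) + 1) * (6 * v' + 1) - (3 * t' + 1) * (6 * v + 1)) = 0 := by
          exact_mod_cast h0
        rw [this, zero_div]
      have := Int.one_le_abs hne'
      exact_mod_cast this
    rw [e3, abs_div, abs_of_pos (show 0 < (6 * (v : ℝ) + 1) * (6 * v' + 1) * M by positivity),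
      div_le_div_iff₀ hNpos (by positivity), one_mul]
    have e5 : (6 * (v : ℝ) + 1) * (6 * v' + 1) * M ≤ N := by
      rw [hN, sq]
      exact mul_le_mul_of_nonneg_right (mul_le_mul f1 f2 hw0'.le hPpos.le) hMpos.le
    calc (6 * (v : ℝ) + 1) * (6 * v' + 1) * M ≤ 1 * N := by rw [one_mul]; exact e5
      _ ≤ _ := mul_le_mul_of_nonneg_right e4 hNpos.le
  · intro y hy
    rw [hF, Finset.mem_image] at hy
    obtain ⟨⟨v, t⟩, hz, rfl⟩ := hy
    have h3 := hin _ hz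
    obtain ⟨e1, -, -, e4⟩ := hmem _ hz
    obtain ⟨-, f1⟩ := hw _ e1
    simp only at e4 f1
    have hr2 : Q ^ (-τ) / 8 ≤ R0 / 2 := by linarith
    constructor
    · intro z hz
      rw [mem_closedBall, Real.dist_eq] at hz ⊢
      have : z - x = (z - pt ⟨v, t⟩) + (pt ⟨v, t⟩ - x) := by ring
      rw [this]
      exact (abs_add_le _ _).trans (by linarith)
    · intro z hz
      rw [mem_closedBall, Real.dist_eq] at hz
      rw [abs_le] at h3
      have hp1 : pt ⟨v, t⟩ < 1 := by linarith [h3.2]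
      obtain ⟨q, hq⟩ : ∃ q : ℕ, q = (6 * v + 1) * 3 ^ k := ⟨_, rfl⟩
      have hqR : (q : ℝ) = (6 * (v : ℝ) + 1) * M := by rw [hq, hM]; push_cast; ring
      have hw0 : (0 : ℝ) < 6 * (v : ℝ) + 1 := by positivity
      have hqpos : (0 : ℝ) < q := by rw [hqR]; positivity
      have hptq : pt ⟨v, t⟩ = ((3 * t + 1 : ℕ) : ℝ) / q := by
        rw [hqR]; simp only [hpt]; push_cast; ring
      have hpq : 3 * t + 1 < q := by
        rw [hptq, div_lt_one hqpos] at hp1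
        exact_mod_cast hp1
      have hqQ : (q : ℝ) ≤ Q := by
        rw [hqR, hQ]; exact mul_le_mul_of_nonneg_right f1 hMpos.le
      have hjq : j ≤ q := by
        have e5 : k < 3 ^ k := Nat.lt_pow_self (by norm_num)
        have e6 : 3 ^ k ≤ (6 * v + 1) * 3 ^ k := Nat.le_mul_of_pos_left _ (by omega)
        rw [hq]; omega
      refine ⟨3 * t + 1, q, hjq, by omega, hpq, ?_, ?_, ?_⟩
      · rw [hq]; exact copB t v k e4
      · rw [← hptq]
        have e5 : Q ^ (-τ) ≤ (q : ℝ) ^ (-τ) :=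
          Real.rpow_le_rpow_of_nonpos hqpos hqQ (by linarith)
        linarith
      · rw [one_mul]
        refine (rad_boundB t v k q hq hpq).trans ?_
        have e5 : (q : ℝ) ^ lam = (q : ℝ) ^ 2 * (q : ℝ) ^ (lam - 2) := by
          rw [← Real.rpow_natCast, ← Real.rpow_add hqpos]; congr 1; push_cast; ring
        rw [e5]
        apply mul_le_mul_of_nonneg_left _ (by positivity)
        -- 3 w ≤ q^(lam-2) = w^(lam-2) M^(lam-2)
        rw [hqR, Real.mul_rpow hw0.le hMpos.le]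
        have e6 : (6 * (v : ℝ) + 1) ^ (3 - lam) * (6 * (v : ℝ) + 1) ^ (lam - 2) =
            6 * (v : ℝ) + 1 := by
          rw [← Real.rpow_add hw0]
          have : 3 - lam + (lam - 2) = 1 := by ring
          rw [this, Real.rpow_one]
        have e7 : (6 * (v : ℝ) + 1) ^ (3 - lam) ≤ M ^ (lam - 2) / 3 :=
          (Real.rpow_le_rpow hw0.le f1 hl3.le).trans hV1
        have e8 : 0 < (6 * (v : ℝ) + 1) ^ (lam - 2) := by positivity
        calc 3 * (6 * (v : ℝ) + 1)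
            = 3 * ((6 * (v : ℝ) + 1) ^ (3 - lam) * (6 * (v : ℝ) + 1) ^ (lam - 2)) := by rw [e6]
          _ ≤ 3 * (M ^ (lam - 2) / 3 * (6 * (v : ℝ) + 1) ^ (lam - 2)) := by gcongr
          _ = _ := by ring

end Pool.Agent.H70HD
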