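import Pool.Agent.H438R2.Nest
import Pool.Agent.H70HD.Step

/-!
Lower bound for the Hausdorff dimension of a limsup set from well spaced systems of points.
-/

set_option autoImplicit false

open Set Metric MeasureTheory

namespace Pool.Agent.H70HD

theorem dim_of_system (V : ℕ → Set ℝ) (σ A c : ℝ) (hσ : 0 < σ) (hσ1 : σ ≤ 1) (hA : 1 ≤ A)
    (hc : 0 < c) (a b : ℝ) (hab : a < b)
    (hyp : ∀ x R0 : ℝ, 0 < R0 → closedBall x R0 ⊆ Ioo a b → ∀ (j : ℕ) (K0 δ : ℝ), 0 < δ →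
      ∃ (N r : ℝ) (F : Finset ℝ), K0 ≤ N ∧ 0 < N ∧ 0 < r ∧ r ≤ δ ∧ c * N ^ (-(1 / σ)) ≤ r ∧
        4 * r * N ≤ 1 ∧ R0 * N / A ≤ F.card ∧
        (∀ y ∈ F, ∀ y' ∈ F, y ≠ y' → 1 / N ≤ |y - y'|) ∧
        ∀ y ∈ F, closedBall y r ⊆ closedBall x R0 ∧ closedBall y r ⊆ V j)
    (s : ℝ) (hs : 0 < s) (hsσ : s < σ) :
    ENNReal.ofReal s ≤ dimH ({x | ∀ j, x ∈ V j} ∩ Ioo a b) := by
  have hκ1 : (1 : ℝ) / (64 * A) < 1 := by
    rw [div_lt_one (by positivity)]; linarith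
  have hnest := Pool.Agent.H438R2.nest (X := ℝ) s (1 / (64 * A)) hs (by positivity) hκ1
    {b' | 0 < b'.2 ∧ closedBall b'.1 b'.2 ⊆ Ioo a b} V (fun b' hb => hb.1)
    (fun b' hb j δ hδ => by
      obtain ⟨K0, hK0⟩ := step_abs σ s A c b'.2 hσ hs hsσ hσ1 hA hc hb.1
      obtain ⟨N, r, F, h1, h2, h3, h4, h5, h6, h7, h8, h9⟩ := hyp b'.1 b'.2 hb.1 hb.2 j K0 δ hδ
      obtain ⟨h10, h11⟩ := hK0 N r F h1 h2 h3 h5 h6 h7 h8
      exact ⟨r, F, h3, h4, fun y hy => ⟨⟨h3, (h9 y hy).1.trans hb.2⟩, (h9 y hy).1, (h9 y hy).2⟩,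
        h10, h11⟩)
    ((a + b) / 2, (b - a) / 4) ⟨by simp only; linarith, by
      intro y hy
      rw [mem_closedBall, Real.dist_eq, abs_le] at hy
      simp only at hy
      constructor <;> linarith [hy.1, hy.2]⟩
  have hsub : ({x : ℝ | ∀ j, x ∈ V j} ∩ closedBall ((a + b) / 2) ((b - a) / 4)) ⊆
      {x | ∀ j, x ∈ V j} ∩ Ioo a b := by
    rintro x ⟨h1, h2⟩
    refine ⟨h1, ?_⟩
    rw [mem_closedBall, Real.dist_eq, abs_le] at h2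
    constructor <;> linarith [h2.1, h2.2]
  have hne : μH[s] ({x | ∀ j, x ∈ V j} ∩ Ioo a b) ≠ 0 := by
    intro h0
    exact hnest (measure_mono_null hsub h0)
  have h := le_dimH_of_hausdorffMeasure_ne_zero (d := s.toNNReal)
    (s := {x | ∀ j, x ∈ V j} ∩ Ioo a b) (by rwa [Real.coe_toNNReal s hs.le])
  exact h

end Pool.Agent.H70HD
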